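import Pool.Agent.KS6_69.WS.Top

/-!
# Weak and strong Sobolev closures of homeomorphisms differ on one polyhedral solid torus

The notions (`IsWeakDiff`, `IsSobolev`, `WeakConv`, `StrongConv`, `IsHomeo`, `weakClosureHom`,
`strongClosureHom`) and the domain `annBox n` are in `Pool.Agent.KS6_69.WS.SobDefs`.
-/

set_option autoImplicit false

open MeasureTheory Set Filter Topology
open scoped ENNReal NNReal
open Pool.Agent.KS6_69.WS.SobDefs

namespace Pool.Agent.Results.MP_a6162f_an.AnnularBox

/-- For every `n ≥ 3` let `Ω` be the open square annulus times the open unit `(n-2)`-cube. There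
are a bounded connected open `Ω'`, a map `f` and homeomorphisms `F k` of `Ω` onto `Ω'`, all
Lipschitz with constant `22` and uniformly converging to `f`, such that for every `1 ≤ p ≤ ∞` the
map `f` is in the weak but not in the strong `W^{1,p}` closure of the homeomorphisms of `Ω` onto
`Ω'`. -/
theorem result (n : ℕ) (hn : 3 ≤ n) :
    IsOpen (annBox n) ∧ Bornology.IsBounded (annBox n) ∧ IsConnected (annBox n) ∧
    ∃ (Ω' : Set (Eu n)) (f : Eu n → Eu n) (F : ℕ → Eu n → Eu n),
      IsOpen Ω' ∧ Bornology.IsBounded Ω' ∧ IsConnected Ω' ∧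
      (∀ k, IsHomeo (annBox n) Ω' (F k) ∧ LipschitzOnWith 22 (F k) (annBox n)) ∧
      TendstoUniformlyOn F f atTop (annBox n) ∧
      ∀ p : ℝ≥0∞, 1 ≤ p →
        f ∈ weakClosureHom p (annBox n) Ω' ∧ f ∉ strongClosureHom p (annBox n) Ω' :=
  Pool.Agent.KS6_69.WS.Top.main n hn

end Pool.Agent.Results.MP_a6162f_an.AnnularBox
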